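import Pool.Agent.H40.QU.Dich

/-!
# Back to the polynomial itself
-/

set_option autoImplicit false

namespace Pool.Agent.H40.QU

open Finset Filter Topology
open Pool.Agent.K4H14.MT (Sys lf cls cnt dl dl_pos dl_le)

/-- the number of `m` with `X < m ≤ Y`, `m ≡ r (mod q)` for which `a m² + b m + c` is prime -/
def pc (a b c : ℤ) (X Y q r : ℕ) : ℕ :=
  ((Ioc X Y).filter (fun m : ℕ => m ≡ r [MOD q] ∧ (val a b c m).toNat.Prime)).card

/-- the number of the classes `r` modulo `q` for which `a r² + b r + c` is prime to `q` -/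
def cl (a b c : ℤ) (q : ℕ) : ℕ := ((range q).filter (fun r : ℕ => Int.gcd (val a b c r) q = 1)).card

theorem val_congr (a b c : ℤ) {q m n : ℕ} (h : m ≡ n [MOD q]) : val a b c m ≡ val a b c n [ZMOD q] := by
  have h1 : (m : ℤ) ≡ n [ZMOD q] := (Int.natCast_modEq_iff).2 h
  unfold val
  exact (((h1.pow 2).mul_left a).add (h1.mul_left b)).add_right c

theorem F_cop (a b c : ℤ) (ha : 0 < a) (n q : ℕ) :
    Nat.Coprime (F a b c n) q ↔ Int.gcd (val a b c (n + sh b c)) q = 1 := by
  rw [← F_cast a b c ha]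
  rfl

theorem gcd_congr (a b c : ℤ) {q m n : ℕ} (h : m ≡ n [MOD q]) :
    Int.gcd (val a b c m) q = Int.gcd (val a b c n) q := by
  rw [← Int.gcd_emod, (val_congr a b c h : val a b c m % q = val a b c n % q), Int.gcd_emod]

theorem cls_eq (a b c : ℤ) (ha : 0 < a) (q : ℕ) (hq : 0 < q) : cls (F a b c) q = cl a b c q := by
  unfold cls cl
  refine card_bij (fun x _ => (x + sh b c) % q) ?_ ?_ ?_
  · intro x hx
    rw [mem_filter, mem_range] at hx ⊢
    refine ⟨Nat.mod_lt _ hq, ?_⟩
    rw [gcd_congr a b c (Nat.mod_modEq (x + sh b c) q)]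
    exact (F_cop a b c ha x q).1 hx.2
  · intro x hx y hy h
    rw [mem_filter, mem_range] at hx hy
    have h1 : x ≡ y [MOD q] := Nat.ModEq.add_right_cancel' _ h
    exact Nat.ModEq.eq_of_lt_of_lt h1 hx.1 hy.1
  · intro y hy
    rw [mem_filter, mem_range] at hy
    have hmod : (y + (q - 1) * sh b c) % q + sh b c ≡ y [MOD q] := by
      have h1 : (y + (q - 1) * sh b c) % q + sh b c ≡ y + (q - 1) * sh b c + sh b c [MOD q] :=
        (Nat.mod_modEq _ _).add_right _
      refine h1.trans ?_
      have e : y + (q - 1) * sh b c + sh b c = y + q * sh b c := by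
        obtain ⟨k, rfl⟩ : ∃ k, q = k + 1 := ⟨q - 1, by omega⟩
        simp only [Nat.add_sub_cancel]
        ring
      rw [e]
      simp [Nat.ModEq]
    refine ⟨(y + (q - 1) * sh b c) % q, ?_, ?_⟩
    · rw [mem_filter, mem_range]
      refine ⟨Nat.mod_lt _ hq, ?_⟩
      rw [F_cop a b c ha, gcd_congr a b c hmod]
      exact hy.2
    · have h2 : ((y + (q - 1) * sh b c) % q + sh b c) % q = y % q := hmod
      rw [h2, Nat.mod_eq_of_lt hy.1]

open Classical in
/-- the shift of the window -/
theorem cnt_eq (a b c : ℤ) (X Y q r : ℕ) :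
    cnt (fun n => (F a b c n).Prime) X Y q r = pc a b c (X + sh b c) (Y + sh b c) q (r + sh b c) := by
  unfold cnt pc
  refine card_nbij' (fun n => n + sh b c) (fun n => n - sh b c) ?_ ?_ ?_ ?_
  · intro n hn
    simp only [coe_filter, mem_Ioc, Set.mem_ofPred_eq] at hn ⊢
    refine ⟨by omega, hn.2.1.add_right _, ?_⟩
    exact hn.2.2
  · intro n hn
    simp only [coe_filter, mem_Ioc, Set.mem_ofPred_eq] at hn ⊢
    have e : n - sh b c + sh b c = n := by omega
    refine ⟨by omega, ?_, ?_⟩
    · apply Nat.ModEq.add_right_cancel' (sh b c)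
      rw [e]
      exact hn.2.1
    · unfold F
      rw [e]
      exact hn.2.2
  · intro n _
    simp
  · intro n hn
    simp only [coe_filter, mem_Ioc, Set.mem_ofPred_eq] at hn
    simp only
    omega

theorem pc_shift (a b c : ℤ) (X Y q r t : ℕ) :
    |(pc a b c (X + t) (Y + t) q r : ℝ) - pc a b c X Y q r| ≤ t := by
  have h1 : pc a b c (X + t) (Y + t) q r ≤ pc a b c X Y q r + t := by
    unfold pc
    have h : (Ioc (X + t) (Y + t)).filter (fun m : ℕ => m ≡ r [MOD q] ∧ (val a b c m).toNat.Prime) ⊆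
        (Ioc X Y).filter (fun m : ℕ => m ≡ r [MOD q] ∧ (val a b c m).toNat.Prime) ∪ Ioc Y (Y + t) := by
      intro m hm
      rw [mem_filter, mem_Ioc] at hm
      rw [mem_union, mem_filter, mem_Ioc, mem_Ioc]
      by_cases h : m ≤ Y
      · left; exact ⟨⟨by omega, h⟩, hm.2⟩
      · right; omega
    refine (card_le_card h).trans ((card_union_le _ _).trans ?_)
    rw [Nat.card_Ioc]
    omega
  have h2 : pc a b c X Y q r ≤ pc a b c (X + t) (Y + t) q r + t := by
    unfold pc
    have h : (Ioc X Y).filter (fun m : ℕ => m ≡ r [MOD q] ∧ (val a b c m).toNat.Prime) ⊆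
        (Ioc (X + t) (Y + t)).filter (fun m : ℕ => m ≡ r [MOD q] ∧ (val a b c m).toNat.Prime) ∪
          Ioc X (X + t) := by
      intro m hm
      rw [mem_filter, mem_Ioc] at hm
      rw [mem_union, mem_filter, mem_Ioc, mem_Ioc]
      by_cases h : X + t < m
      · left; exact ⟨⟨h, by omega⟩, hm.2⟩
      · right; omega
    refine (card_le_card h).trans ((card_union_le _ _).trans ?_)
    rw [Nat.card_Ioc]
    omega
  have h1' : (pc a b c (X + t) (Y + t) q r : ℝ) ≤ pc a b c X Y q r + t := by exact_mod_cast h1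
  have h2' : (pc a b c X Y q r : ℝ) ≤ pc a b c (X + t) (Y + t) q r + t := by exact_mod_cast h2
  rw [abs_le]
  constructor <;> linarith

end Pool.Agent.H40.QU
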