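import Pool.Agent.H40.QU.Win

/-!
# The dichotomy for the shifted polynomial
-/

set_option autoImplicit false

namespace Pool.Agent.H40.QU

open Finset Filter Topology
open Pool.Agent.K4H14.MT (Sys lf cls cnt dl dl_pos dl_le)
open Pool.Agent.K4H14.FG (win UJ PJ th UJ_prime th_half th_mono th_top)

theorem F_le (a b c : ℤ) (ha : 0 < a) (s : ℕ) (hs : 1 ≤ s) :
    (F a b c s : ℤ) ≤ ((a + b.natAbs + c.natAbs) * (1 + (sh b c : ℤ)) ^ 2) * (s : ℤ) ^ 2 := by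
  rw [F_cast a b c ha]
  unfold val
  have h1 : ((s + sh b c : ℕ) : ℤ) ≤ (1 + (sh b c : ℤ)) * s := by
    push_cast
    have hs' : (1 : ℤ) ≤ s := by exact_mod_cast hs
    have h0 : (0 : ℤ) ≤ sh b c := Int.natCast_nonneg _
    nlinarith
  set m : ℤ := ((s + sh b c : ℕ) : ℤ) with hm
  have hm1 : 1 ≤ m := by
    rw [hm]
    push_cast
    have hs' : (1 : ℤ) ≤ s := by exact_mod_cast hs
    have h0 : (0 : ℤ) ≤ sh b c := Int.natCast_nonneg _
    linarith
  have h2 : b ≤ b.natAbs := by omega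
  have h3 : c ≤ c.natAbs := by omega
  have hb0 : (0 : ℤ) ≤ b.natAbs := Int.natCast_nonneg _
  have hc0 : (0 : ℤ) ≤ c.natAbs := Int.natCast_nonneg _
  have h4 : m ≤ m ^ 2 := by nlinarith
  have h5 : b * m ≤ b.natAbs * m ^ 2 :=
    (mul_le_mul_of_nonneg_right h2 (by linarith)).trans (mul_le_mul_of_nonneg_left h4 hb0)
  have h6 : c ≤ c.natAbs * m ^ 2 := by nlinarith
  have h7 : a * m ^ 2 + b * m + c ≤ (a + b.natAbs + c.natAbs) * m ^ 2 := by linarith
  have h8 : m ^ 2 ≤ ((1 + (sh b c : ℤ)) * s) ^ 2 := pow_le_pow_left₀ (by linarith) h1 2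
  calc a * m ^ 2 + b * m + c ≤ (a + b.natAbs + c.natAbs) * m ^ 2 := h7
    _ ≤ (a + b.natAbs + c.natAbs) * ((1 + (sh b c : ℤ)) * s) ^ 2 :=
        mul_le_mul_of_nonneg_left h8 (by linarith)
    _ = _ := by ring

open Classical in
theorem dich (a b c : ℤ) (ha : 0 < a) (hD : ¬ IsSquare (b ^ 2 - 4 * a * c)) (B : ℕ) (hB : 1 ≤ B)
    (ε : ℝ) (hε : 0 < ε) (hε1 : ε ≤ 1) :
    ∀ᶠ X : ℕ in atTop, ∀ G : ℝ,
      (∃ q : ℕ, Squarefree q ∧ (∀ p : ℕ, p.Prime → p ∣ q → Real.log X ^ (3 / 8 * ε) ≤ p ∧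
          (p : ℝ) < Real.log X ^ ε) ∧ (q : ℝ) ≤ Real.exp (Real.log X ^ ε) ∧
        ∃ r : ℕ, (r : ℝ) ≤ Real.log X ^ B ∧ Nat.Coprime (F a b c r) q ∧
          dl ⌈6 * B / ε⌉₊ * (G / cls (F a b c) q) ≤
            |(cnt (fun n => (F a b c n).Prime) X (2 * X) q r : ℝ) - G / cls (F a b c) q|) ∨
      ∀ S : ℕ, 1 ≤ S → (S : ℝ) ≤ Real.log X ^ B →
        X * Real.exp (-(Real.log X ^ ε)) ≤ (((Ioc X (2 * X)).filter (fun y : ℕ =>
          dl ⌈6 * B / ε⌉₊ * (S * (G / X)) ≤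
            |(cnt (fun n => (F a b c n).Prime) y (y + S) 1 0 : ℝ) - S * (G / X)|)).card : ℝ) := by
  set N := ⌈6 * B / ε⌉₊ with hN
  have hBr : (1 : ℝ) ≤ B := by exact_mod_cast hB
  have hN1 : 1 ≤ N := Nat.one_le_iff_ne_zero.2 (by
    have : 0 < N := Nat.ceil_pos.2 (by positivity)
    omega)
  have hNle : 6 * B / ε ≤ (N : ℝ) := Nat.le_ceil _
  have hlog : Tendsto (fun X : ℕ => Real.log X) atTop atTop :=
    Real.tendsto_log_atTop.comp tendsto_natCast_atTop_atTop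
  have hz : Tendsto (fun X : ℕ => Real.log X ^ (3 / 4 * ε)) atTop atTop :=
    (tendsto_rpow_atTop (by positivity)).comp hlog
  obtain ⟨K, hK1, hK⟩ : ∃ K : ℝ, 1 ≤ K ∧ ∀ s : ℕ, 1 ≤ s → (F a b c s : ℝ) ≤ K * (s : ℝ) ^ 2 := by
    refine ⟨max 1 ((((a + b.natAbs + c.natAbs) * (1 + (sh b c : ℤ)) ^ 2 : ℤ)) : ℝ), le_max_left _ _,
      fun s hs => ?_⟩
    have h := F_le a b c ha s hs
    have h' : (F a b c s : ℝ) ≤ ((((a + b.natAbs + c.natAbs) * (1 + (sh b c : ℤ)) ^ 2 : ℤ)) : ℝ) *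
        (s : ℝ) ^ 2 := by exact_mod_cast h
    exact h'.trans (mul_le_mul_of_nonneg_right (le_max_right _ _) (by positivity))
  have hroot : Tendsto (fun X : ℕ => Real.log X ^ (1 / 4 : ℝ)) atTop atTop :=
    (tendsto_rpow_atTop (by norm_num)).comp hlog
  filter_upwards [Pool.Agent.K4H14.MT.main N B hN1 ε hε hε1, hz.eventually (win_small a b c ha hD N hN1),
    hlog.eventually (eventually_gt_atTop (16 : ℝ)), hroot.eventually_gt_atTop K] with X hmain hwX hL hKX G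
  by_cases hc : (∃ q : ℕ, Squarefree q ∧ (∀ p : ℕ, p.Prime → p ∣ q → Real.log X ^ (3 / 8 * ε) ≤ p ∧
          (p : ℝ) < Real.log X ^ ε) ∧ (q : ℝ) ≤ Real.exp (Real.log X ^ ε) ∧
        ∃ r : ℕ, (r : ℝ) ≤ Real.log X ^ B ∧ Nat.Coprime (F a b c r) q ∧
          dl N * (G / cls (F a b c) q) ≤
            |(cnt (fun n => (F a b c n).Prime) X (2 * X) q r : ℝ) - G / cls (F a b c) q|)
  · exact Or.inl hc
  · right
    intro S hS1 hSB
    have hFS : ∀ s ∈ Icc 1 S, (F a b c s : ℝ) < (Real.log X ^ (3 / 4 * ε)) ^ ((N : ℝ) / 2) := by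
      intro s hs
      rw [mem_Icc] at hs
      set L := Real.log X with hLdef
      have hL0 : 0 < L := by linarith
      have hs1 : (1 : ℝ) ≤ s := by exact_mod_cast hs.1
      have hsS : (s : ℝ) ≤ L ^ B := (by exact_mod_cast hs.2 : (s : ℝ) ≤ S).trans hSB
      have h1 : (F a b c s : ℝ) ≤ K * (L ^ B) ^ 2 := by
        refine (hK s hs.1).trans (mul_le_mul_of_nonneg_left ?_ (by linarith))
        exact pow_le_pow_left₀ (by linarith) hsS 2
      refine h1.trans_lt ?_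
      rw [← Real.rpow_mul hL0.le]
      have h2 : (L : ℝ) ^ ((2 * B : ℝ) + 1 / 4) ≤ L ^ (3 / 4 * ε * ((N : ℝ) / 2)) := by
        apply Real.rpow_le_rpow_of_exponent_le (by linarith)
        rw [div_le_iff₀ hε] at hNle
        nlinarith
      refine lt_of_lt_of_le ?_ h2
      rw [Real.rpow_add hL0]
      have e : (L : ℝ) ^ (2 * B : ℝ) = (L ^ B) ^ 2 := by
        rw [← pow_mul, ← Real.rpow_natCast]
        congr 1
        push_cast
        ring
      rw [e, mul_comm]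
      exact mul_lt_mul_of_pos_left hKX (by positivity)
    rcases hmain (F a b c) (fun n => (F a b c n).Prime) (sys a b c ha) hwX.2 hwX.1 S hS1 hSB hFS G
      with h | h
    · exact absurd h hc
    · exact h

end Pool.Agent.H40.QU
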