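import Pool.Agent.H40.QU.Shift

/-!
# The dichotomy for the polynomial itself
-/

set_option autoImplicit false

namespace Pool.Agent.H40.QU

open Finset Filter Topology
open Pool.Agent.K4H14.MT (Sys lf cls cnt dl dl_pos dl_le)

/-- the constant -/
noncomputable def del (B : ℕ) (ε : ℝ) : ℝ := dl ⌈6 * B / (ε / 2)⌉₊ / 2

theorem ceil_ge_one (B : ℕ) (hB : 1 ≤ B) (ε : ℝ) (hε : 0 < ε) : 1 ≤ ⌈6 * B / (ε / 2)⌉₊ := by
  have hBr : (1 : ℝ) ≤ B := by exact_mod_cast hB
  have : 0 < ⌈6 * B / (ε / 2)⌉₊ := Nat.ceil_pos.2 (by positivity)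
  omega

theorem del_pos (B : ℕ) (hB : 1 ≤ B) (ε : ℝ) (hε : 0 < ε) : 0 < del B ε := by
  unfold del
  have := dl_pos _ (ceil_ge_one B hB ε hε)
  linarith

theorem del_le (B : ℕ) (hB : 1 ≤ B) (ε : ℝ) (hε : 0 < ε) : del B ε ≤ 1 := by
  unfold del
  have := dl_le _ (ceil_ge_one B hB ε hε)
  linarith

theorem cl_pos_of (a b c : ℤ) (q r : ℕ) (hq : 0 < q) (h : Int.gcd (val a b c r) q = 1) : 0 < cl a b c q := by
  unfold cl
  rw [card_pos]
  refine ⟨r % q, ?_⟩
  rw [mem_filter, mem_range]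
  exact ⟨Nat.mod_lt _ hq, by rw [gcd_congr a b c (Nat.mod_modEq r q)]; exact h⟩

theorem cl_le (a b c : ℤ) (q : ℕ) : cl a b c q ≤ q := by
  unfold cl
  exact (card_filter_le _ _).trans (card_range q).le

theorem growth1 (ε : ℝ) (hε : 0 < ε) (K : ℝ) : ∀ᶠ X : ℕ in atTop,
    K + Real.log X ^ (ε / 2) ≤ Real.log X ^ ε := by
  have hlog : Tendsto (fun X : ℕ => Real.log X) atTop atTop :=
    Real.tendsto_log_atTop.comp tendsto_natCast_atTop_atTop
  have h1 : Tendsto (fun X : ℕ => Real.log X ^ (ε / 2)) atTop atTop :=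
    (tendsto_rpow_atTop (by positivity)).comp hlog
  filter_upwards [h1.eventually_ge_atTop (max K 2), hlog.eventually_ge_atTop 1] with X hX hL
  have h2 : Real.log X ^ ε = Real.log X ^ (ε / 2) * Real.log X ^ (ε / 2) := by
    rw [← Real.rpow_add (by linarith)]
    congr 1
    ring
  rw [h2]
  have h3 := le_max_left K 2
  have h4 := le_max_right K 2
  nlinarith

theorem growth2 (ε : ℝ) (_hε : 0 < ε) (hε1 : ε ≤ 1) (K : ℝ) : ∀ᶠ X : ℕ in atTop,
    K * Real.exp (Real.log X ^ (ε / 2)) ≤ (X : ℝ) ^ (1 / 2 : ℝ) := by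
  have hlog : Tendsto (fun X : ℕ => Real.log X) atTop atTop :=
    Real.tendsto_log_atTop.comp tendsto_natCast_atTop_atTop
  filter_upwards [hlog.eventually_ge_atTop (4 * Real.log (max K 1)), hlog.eventually_ge_atTop 16,
    eventually_ge_atTop 1] with X h4 h5 h6
  have hX : (0 : ℝ) < X := by exact_mod_cast h6
  set L := Real.log X with hL
  have h7 : L ^ (ε / 2) ≤ L ^ (1 / 2 : ℝ) := Real.rpow_le_rpow_of_exponent_le (by linarith) (by linarith)
  have h8 : L ^ (1 / 2 : ℝ) ≤ L / 4 := by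
    rw [← Real.sqrt_eq_rpow]
    have h9 : (4 : ℝ) ≤ √L := by
      rw [show (4 : ℝ) = √16 by rw [show (16 : ℝ) = 4 ^ 2 by norm_num]; simp]
      exact Real.sqrt_le_sqrt h5
    have h10 := Real.mul_self_sqrt (show 0 ≤ L by linarith)
    nlinarith
  have hK : K ≤ Real.exp (L / 4) := by
    calc K ≤ max K 1 := le_max_left _ _
      _ = Real.exp (Real.log (max K 1)) := (Real.exp_log (lt_of_lt_of_le one_pos (le_max_right _ _))).symm
      _ ≤ _ := Real.exp_le_exp.2 (by linarith)
  calc K * Real.exp (L ^ (ε / 2)) ≤ Real.exp (L / 4) * Real.exp (L ^ (ε / 2)) :=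
        mul_le_mul_of_nonneg_right hK (Real.exp_pos _).le
    _ = Real.exp (L / 4 + L ^ (ε / 2)) := (Real.exp_add _ _).symm
    _ ≤ Real.exp (L * (1 / 2)) := Real.exp_le_exp.2 (by linarith)
    _ = (X : ℝ) ^ (1 / 2 : ℝ) := (Real.rpow_def_of_pos hX _).symm

theorem growth3 (B : ℕ) : ∀ᶠ X : ℕ in atTop,
    2 * Real.log X ^ B < (X : ℝ) ^ (1 / 2 : ℝ) := by
  have h : (fun x : ℝ => Real.log x ^ B) =o[atTop] fun x : ℝ => x ^ (1 / 2 : ℝ) := by
    have h0 := isLittleO_log_rpow_rpow_atTop (B : ℝ) (show (0 : ℝ) < 1 / 2 by norm_num)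
    simpa using h0
  have h1 := (h.bound (show (0 : ℝ) < 1 / 3 by norm_num))
  filter_upwards [tendsto_natCast_atTop_atTop.eventually h1, eventually_ge_atTop 1] with X h2 h3
  have hX : (0 : ℝ) < X := by exact_mod_cast h3
  have h4 : (0 : ℝ) < (X : ℝ) ^ (1 / 2 : ℝ) := Real.rpow_pos_of_pos hX _
  rw [Real.norm_of_nonneg h4.le] at h2
  have h5 := (le_abs_self _).trans h2
  linarith

/-- **The dichotomy.** -/
theorem final (a b c : ℤ) (ha : 0 < a) (hD : ¬ IsSquare (b ^ 2 - 4 * a * c)) (B : ℕ) (hB : 1 ≤ B)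
    (ε : ℝ) (hε : 0 < ε) (hε1 : ε ≤ 1) :
    ∀ᶠ X : ℕ in atTop, ∀ G : ℝ,
      (∃ q : ℕ, Squarefree q ∧ (∀ p : ℕ, p.Prime → p ∣ q → Real.log X ^ (ε / 8) ≤ p ∧
          (p : ℝ) < Real.log X ^ ε) ∧ (q : ℝ) ≤ Real.exp (Real.log X ^ ε) ∧
        ∃ r : ℕ, (r : ℝ) ≤ 2 * Real.log X ^ B ∧ Int.gcd (val a b c r) q = 1 ∧
          del B ε * (G / cl a b c q) ≤ |(pc a b c X (2 * X) q r : ℝ) - G / cl a b c q|) ∨
      ∀ S : ℕ, 1 ≤ S → (S : ℝ) ≤ Real.log X ^ B →
        X * Real.exp (-(Real.log X ^ ε)) ≤ (((Ioc X (2 * X)).filter (fun y : ℕ =>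
          del B ε * (S * (G / X)) ≤ |(pc a b c y (y + S) 1 0 : ℝ) - S * (G / X)|)).card : ℝ) := by
  classical
  have hlog : Tendsto (fun X : ℕ => Real.log X) atTop atTop :=
    Real.tendsto_log_atTop.comp tendsto_natCast_atTop_atTop
  have hd0 := del_pos B hB ε hε
  have hd1 := del_le B hB ε hε
  have hdd : dl ⌈6 * B / (ε / 2)⌉₊ = 2 * del B ε := by unfold del; ring
  set m := sh b c with hm
  have hlogB : Tendsto (fun X : ℕ => Real.log X ^ B) atTop atTop :=
    (tendsto_pow_atTop (by omega)).comp hlog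
  filter_upwards [dich a b c ha hD B hB (ε / 2) (by positivity) (by linarith), growth1 ε hε (Real.log 2),
    growth2 ε hε hε1 (m / del B ε), growth2 ε hε hε1 (2 * m), growth3 B,
    hlog.eventually_ge_atTop 1, eventually_ge_atTop 2,
    hlogB.eventually_ge_atTop (m : ℝ)] with X hdich hg1 hg2 hg2' hg3 hL1 hX2 hBm G
  set L := Real.log X with hLdef
  have hXr : (2 : ℝ) ≤ X := by exact_mod_cast hX2
  have hX0 : (0 : ℝ) < X := by linarith
  have hsq : (X : ℝ) ^ (1 / 2 : ℝ) * (X : ℝ) ^ (1 / 2 : ℝ) = X := by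
    rw [← Real.rpow_add hX0]
    norm_num
  have hs0 : (0 : ℝ) < (X : ℝ) ^ (1 / 2 : ℝ) := Real.rpow_pos_of_pos hX0 _
  have hs1 : (1 : ℝ) ≤ (X : ℝ) ^ (1 / 2 : ℝ) := Real.one_le_rpow (by linarith) (by norm_num)
  have hLe : L ^ (ε / 2) ≤ L ^ ε := Real.rpow_le_rpow_of_exponent_le hL1 (by linarith)
  by_cases hG : G < (X : ℝ) ^ (1 / 2 : ℝ)
  · -- small main terms
    right
    intro S hS1 hSB
    have hall : (Ioc X (2 * X)).filter (fun y : ℕ =>
          del B ε * (S * (G / X)) ≤ |(pc a b c y (y + S) 1 0 : ℝ) - S * (G / X)|) = Ioc X (2 * X) := by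
      apply filter_true_of_mem
      intro y _
      set n := pc a b c y (y + S) 1 0
      set t : ℝ := S * (G / X) with ht
      have hSr : (1 : ℝ) ≤ S := by exact_mod_cast hS1
      have ht2 : t < 1 / 2 := by
        rw [ht, mul_div_assoc', div_lt_iff₀ hX0]
        rcases le_or_gt G 0 with h | h
        · have : (S : ℝ) * G ≤ 0 := mul_nonpos_of_nonneg_of_nonpos (by linarith) h
          linarith
        · have h1 : (S : ℝ) * G ≤ L ^ B * (X : ℝ) ^ (1 / 2 : ℝ) := mul_le_mul hSB hG.le h.le (by linarith)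
          nlinarith
      rcases le_or_gt t 0 with h | h
      · exact (mul_nonpos_of_nonneg_of_nonpos hd0.le h).trans (abs_nonneg _)
      · rcases Nat.eq_zero_or_pos n with h0 | h0
        · rw [h0, Nat.cast_zero, zero_sub, abs_neg, abs_of_pos h]
          nlinarith
        · have h1 : (1 : ℝ) ≤ n := by exact_mod_cast h0
          rw [abs_of_pos (by linarith)]
          nlinarith
    rw [hall, Nat.card_Ioc]
    have e : ((2 * X - X : ℕ) : ℝ) = X := by
      have : 2 * X - X = X := by omega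
      rw [this]
    rw [e]
    have h1 : Real.exp (-(L ^ ε)) ≤ 1 := Real.exp_le_one_iff.2 (by
      have : 0 ≤ L ^ ε := by positivity
      linarith)
    nlinarith
  · push Not at hG
    have hG0 : 0 < G := hs0.trans_le hG
    rcases hdich G with ⟨q, hq1, hq2, hq3, r, hr1, hr2, hr3⟩ | h
    · left
      have hq0 : 0 < q := Nat.pos_of_ne_zero (by rintro rfl; exact not_squarefree_zero hq1)
      refine ⟨q, hq1, fun p hp hpq => ⟨?_, ?_⟩, ?_, r + m, ?_, (F_cop a b c ha r q).1 hr2, ?_⟩
      · exact (Real.rpow_le_rpow_of_exponent_le hL1 (by linarith)).trans (hq2 p hp hpq).1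
      · exact (hq2 p hp hpq).2.trans_le hLe
      · exact hq3.trans (Real.exp_le_exp.2 hLe)
      · push_cast
        linarith
      · rw [cls_eq a b c ha q hq0, cnt_eq, ← hm] at hr3
        have hcl0 : 0 < cl a b c q := cl_pos_of a b c q (r + m) hq0 ((F_cop a b c ha r q).1 hr2)
        have hclr : (0 : ℝ) < cl a b c q := by exact_mod_cast hcl0
        have hclq : (cl a b c q : ℝ) ≤ q := by exact_mod_cast cl_le a b c q
        have h1 := pc_shift a b c X (2 * X) q (r + m) m
        -- the shift is small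
        have h2 : (m : ℝ) ≤ del B ε * (G / cl a b c q) := by
          rw [mul_div_assoc', le_div_iff₀ hclr]
          have h3 : (m : ℝ) / del B ε * Real.exp (L ^ (ε / 2)) ≤ G := hg2.trans hG
          have h4 : (m : ℝ) * Real.exp (L ^ (ε / 2)) ≤ G * del B ε := by
            rw [div_mul_eq_mul_div, div_le_iff₀ hd0] at h3
            exact h3
          calc (m : ℝ) * cl a b c q ≤ m * Real.exp (L ^ (ε / 2)) :=
                mul_le_mul_of_nonneg_left (hclq.trans hq3) (Nat.cast_nonneg _)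
            _ ≤ _ := by linarith
        rw [hdd] at hr3
        have h5 : |(pc a b c (X + m) (2 * X + m) q (r + m) : ℝ) - G / cl a b c q| ≤
            |(pc a b c (X + m) (2 * X + m) q (r + m) : ℝ) - pc a b c X (2 * X) q (r + m)| +
            |(pc a b c X (2 * X) q (r + m) : ℝ) - G / cl a b c q| := abs_sub_le _ _ _
        linarith
    · right
      intro S hS1 hSB
      have h1 := h S hS1 hSB
      set bad := (Ioc X (2 * X)).filter (fun y : ℕ => dl ⌈6 * B / (ε / 2)⌉₊ * (S * (G / X)) ≤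
            |(cnt (fun n => (F a b c n).Prime) y (y + S) 1 0 : ℝ) - S * (G / X)|) with hbad
      set bad' := (Ioc X (2 * X)).filter (fun y : ℕ =>
          del B ε * (S * (G / X)) ≤ |(pc a b c y (y + S) 1 0 : ℝ) - S * (G / X)|) with hbad'
      have hcard : bad.card ≤ bad'.card + m := by
        have h2 : bad.card ≤ (bad' ∪ Ioc (2 * X) (2 * X + m)).card := by
          refine card_le_card_of_injOn (fun y => y + m) ?_ (fun x _ y _ h => by simpa using h)
          intro y hy
          rw [hbad, mem_coe, mem_filter, mem_Ioc] at hy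
          rw [mem_coe, mem_union]
          change y + m ∈ bad' ∨ y + m ∈ Ioc (2 * X) (2 * X + m)
          by_cases h3 : y + m ≤ 2 * X
          · left
            rw [hbad', mem_filter, mem_Ioc]
            refine ⟨⟨by omega, h3⟩, ?_⟩
            have h4 := hy.2
            rw [cnt_eq, ← hm, hdd] at h4
            have e1 : y + S + m = y + m + S := by ring
            have e2 : pc a b c (y + m) (y + S + m) 1 (0 + m) = pc a b c (y + m) (y + m + S) 1 0 := by
              rw [e1]
              unfold pc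
              congr 1
              apply filter_congr
              intro x _
              simp [Nat.modEq_one]
            rw [e2] at h4
            refine le_trans ?_ h4
            have h5 : 0 ≤ (S : ℝ) * (G / X) := by positivity
            nlinarith
          · right
            rw [mem_Ioc]
            omega
        refine h2.trans ((card_union_le _ _).trans ?_)
        rw [Nat.card_Ioc]
        omega
      have hcard' : (bad.card : ℝ) ≤ bad'.card + m := by exact_mod_cast hcard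
      -- sizes
      have hE : 0 < Real.exp (-(L ^ (ε / 2))) := Real.exp_pos _
      have h3 : 2 * (m : ℝ) ≤ X * Real.exp (-(L ^ (ε / 2))) := by
        have h4 : 2 * (m : ℝ) * Real.exp (L ^ (ε / 2)) ≤ X := by
          refine hg2'.trans ?_
          nlinarith
        rw [Real.exp_neg, ← div_eq_mul_inv, le_div_iff₀ (Real.exp_pos _)]
        exact h4
      have h4 : 2 * Real.exp (-(L ^ ε)) ≤ Real.exp (-(L ^ (ε / 2))) := by
        have e2 : Real.exp (Real.log 2) = 2 := Real.exp_log (by norm_num)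
        calc 2 * Real.exp (-(L ^ ε)) = Real.exp (Real.log 2 + -(L ^ ε)) := by rw [Real.exp_add, e2]
          _ ≤ _ := Real.exp_le_exp.2 (by linarith)
      have h5 : (X : ℝ) * (2 * Real.exp (-(L ^ ε))) ≤ X * Real.exp (-(L ^ (ε / 2))) :=
        mul_le_mul_of_nonneg_left h4 hX0.le
      have h6 : (X : ℝ) * (2 * Real.exp (-(L ^ ε))) = 2 * (X * Real.exp (-(L ^ ε))) := by ring
      rw [h6] at h5
      clear hg1 hg2 hg2' hg3 hsq hdich h hbad hbad' hcard
      linarith

end Pool.Agent.H40.QU
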