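import Pool.Graph.R_pool_sql_team_seeded_c8625f6e.K4H14.MT.Main

/-!
# Local factors of quadratic polynomials in windows of primes
-/

set_option autoImplicit false

namespace Pool.Agent.H40.QU

open Finset Filter Topology
open Pool.Agent.K4H14.MT (Sys lf cls cnt)
open Pool.Agent.K4H14.FG (win UJ PJ th UJ_prime th_half th_mono th_top)

/-- the value of the polynomial -/
def val (a b c : ℤ) (m : ℕ) : ℤ := a * (m : ℤ) ^ 2 + b * m + c

/-- the shift -/
def sh (b c : ℤ) : ℕ := b.natAbs + c.natAbs + 2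

/-- the shifted polynomial, with natural values -/
def F (a b c : ℤ) (n : ℕ) : ℕ := (val a b c (n + sh b c)).toNat

theorem val_ge (a b c : ℤ) (ha : 0 < a) (m : ℕ) (hm : sh b c ≤ m) : 2 * (m : ℤ) ≤ val a b c m := by
  unfold val
  unfold sh at hm
  have h1 : (b.natAbs : ℤ) + c.natAbs + 2 ≤ m := by exact_mod_cast hm
  have h2 : -(b.natAbs : ℤ) ≤ b := by omega
  have h3 : -(c.natAbs : ℤ) ≤ c := by omega
  have hc0 : (0 : ℤ) ≤ c.natAbs := Int.natCast_nonneg _
  have hb0 : (0 : ℤ) ≤ b.natAbs := Int.natCast_nonneg _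
  have h4 : (m : ℤ) * (2 + c.natAbs) ≤ a * (m : ℤ) ^ 2 + b * m := by
    have e : a * (m : ℤ) ^ 2 + b * m = (m : ℤ) * (a * m + b) := by ring
    rw [e]
    apply mul_le_mul_of_nonneg_left _ (by omega)
    nlinarith
  nlinarith

theorem F_cast (a b c : ℤ) (ha : 0 < a) (n : ℕ) : (F a b c n : ℤ) = val a b c (n + sh b c) := by
  unfold F
  rw [Int.toNat_of_nonneg]
  have := val_ge a b c ha (n + sh b c) (by omega)
  omega

theorem F_ge (a b c : ℤ) (ha : 0 < a) (n : ℕ) : n + 1 ≤ F a b c n := by
  have h1 := val_ge a b c ha (n + sh b c) (by omega)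
  have h2 := F_cast a b c ha n
  have h3 : 2 ≤ sh b c := by unfold sh; omega
  push_cast at h1
  omega

theorem val_mod (a b c : ℤ) (m n : ℕ) : (m : ℤ) ∣ val a b c (n + m) - val a b c n := by
  unfold val
  refine ⟨a * (2 * n + m) + b, ?_⟩
  push_cast
  ring

theorem sys (a b c : ℤ) (ha : 0 < a) : Sys (F a b c) (fun n => (F a b c n).Prime) where
  per := by
    intro m n
    rw [← Int.natCast_modEq_iff, F_cast a b c ha, F_cast a b c ha]
    apply Int.ModEq.symm
    rw [Int.modEq_iff_dvd]
    have h := val_mod a b c m (n + sh b c)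
    have e : n + sh b c + m = n + m + sh b c := by ring
    rwa [e] at h
  cop := by
    intro n q hq hqn hp
    rw [Nat.Prime.coprime_iff_not_dvd hp]
    intro h
    have h1 := Nat.le_of_dvd (by omega) h
    have := F_ge a b c ha n
    omega
  pos := fun n _ => by
    have := F_ge a b c ha n
    omega

/-- the roots of the polynomial modulo an odd prime which does not divide `a` -/
theorem card_roots (a b c : ℤ) (ha : 0 < a) (p : ℕ) (hp : p.Prime) (hp2 : p ≠ 2) (hpa : ¬ (p : ℤ) ∣ a) :
    ((range p).filter (fun x => p ∣ F a b c x)).card =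
      ((range p).filter (fun m : ℕ => (p : ℤ) ∣ (m : ℤ) ^ 2 + -(b ^ 2 - 4 * a * c))).card := by
  have : Fact p.Prime := ⟨hp⟩
  have key : ∀ (P : ZMod p → Prop) (Q : ℕ → Prop) [DecidablePred P] [DecidablePred Q],
      (∀ x : ℕ, Q x ↔ P (x : ZMod p)) →
      ((range p).filter Q).card = ((univ : Finset (ZMod p)).filter P).card := by
    intro P Q _ _ h
    refine card_nbij' (fun x : ℕ => (x : ZMod p)) (fun x => x.val) ?_ ?_ ?_ ?_
    · intro x hx
      simp only [coe_filter, mem_range, Set.mem_ofPred_eq, mem_univ, true_and] at hx ⊢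
      exact (h x).1 hx.2
    · intro x hx
      simp only [coe_filter, mem_range, Set.mem_ofPred_eq, mem_univ, true_and] at hx ⊢
      refine ⟨ZMod.val_lt x, (h _).2 ?_⟩
      rwa [ZMod.natCast_zmod_val]
    · intro x hx
      simp only [coe_filter, mem_range, Set.mem_ofPred_eq] at hx
      exact ZMod.val_cast_of_lt hx.1
    · intro x _
      exact ZMod.natCast_zmod_val x
  rw [key (fun x : ZMod p => (a : ZMod p) * (x + (sh b c : ZMod p)) ^ 2 + b * (x + (sh b c : ZMod p)) + c = 0)
    (fun x => p ∣ F a b c x), key (fun y : ZMod p => y ^ 2 + -((b : ZMod p) ^ 2 - 4 * a * c) = 0)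
    (fun m : ℕ => (p : ℤ) ∣ (m : ℤ) ^ 2 + -(b ^ 2 - 4 * a * c))]
  · have h2a : (2 * a : ZMod p) ≠ 0 := by
      have h2 : (2 : ZMod p) ≠ 0 := by
        intro h
        have h' : ((2 : ℕ) : ZMod p) = 0 := by exact_mod_cast h
        rw [ZMod.natCast_eq_zero_iff] at h'
        exact hp2 ((Nat.prime_dvd_prime_iff_eq hp Nat.prime_two).1 h')
      have h3 : (a : ZMod p) ≠ 0 := by
        intro h
        exact hpa ((ZMod.intCast_zmod_eq_zero_iff_dvd a p).1 h)
      exact mul_ne_zero h2 h3
    refine card_bij (fun x _ => 2 * a * (x + (sh b c : ZMod p)) + b) ?_ ?_ ?_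
    · intro x hx
      rw [mem_filter] at hx ⊢
      refine ⟨mem_univ _, ?_⟩
      linear_combination (4 * a : ZMod p) * hx.2
    · intro x _ y _ h
      have h3 : (2 * a : ZMod p) * (x + (sh b c : ZMod p)) = 2 * a * (y + (sh b c : ZMod p)) := by
        linear_combination h
      have h4 := mul_left_cancel₀ h2a h3
      linear_combination h4
    · intro y hy
      rw [mem_filter] at hy
      refine ⟨(2 * (a : ZMod p))⁻¹ * (y - b) - (sh b c : ZMod p), ?_, ?_⟩
      · rw [mem_filter]
        refine ⟨mem_univ _, ?_⟩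
        have h4a : (4 * a : ZMod p) ≠ 0 := by
          intro h
          apply h2a
          have h2 : (2 : ZMod p) ≠ 0 := left_ne_zero_of_mul h2a
          apply mul_left_cancel₀ h2
          rw [mul_zero]
          linear_combination h
        apply mul_left_cancel₀ h4a
        rw [mul_zero]
        have e : (2 * a : ZMod p) * ((2 * (a : ZMod p))⁻¹ * (y - b) - (sh b c : ZMod p) + (sh b c : ZMod p)) = y - b := by
          rw [sub_add_cancel, mul_inv_cancel_left₀ h2a]
        linear_combination hy.2 + ((2 * a : ZMod p) * ((2 * (a : ZMod p))⁻¹ * (y - b) - (sh b c : ZMod p) + (sh b c : ZMod p)) + (y - b) + 2 * b) * e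
      · rw [sub_add_cancel, mul_inv_cancel_left₀ h2a]
        ring
  · intro m
    rw [← ZMod.intCast_zmod_eq_zero_iff_dvd]
    push_cast
    exact Iff.rfl
  · intro x
    rw [← Int.natCast_dvd_natCast, F_cast a b c ha, ← ZMod.intCast_zmod_eq_zero_iff_dvd]
    unfold val
    push_cast
    exact Iff.rfl

end Pool.Agent.H40.QU
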