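import Pool.Agent.H40.QU.Loc
import Pool.Graph.R_pool_sql_team_seeded_c8625f6e.K4H14.FG.Dens

/-!
# The products of the local factors over the windows
-/

set_option autoImplicit false

namespace Pool.Agent.H40.QU

open Finset Filter Topology
open Pool.Agent.K4H14.MT (Sys lf cls cnt)
open Pool.Agent.K4H14.FG (win UJ PJ th UJ_prime th_half th_mono th_top)

/-- the local factor of `y² + e` -/
noncomputable def lq (e : ℤ) (p : ℕ) : ℝ :=
  1 - (((range p).filter (fun m : ℕ => (p : ℤ) ∣ (m : ℤ) ^ 2 + e)).card : ℝ) / p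

theorem dens_lq (e : ℤ) (z : ℝ) :
    Pool.Agent.Y882.JR.dens e z = ∏ p ∈ (range ⌈z⌉₊).filter Nat.Prime, lq e p := rfl

/-- a quadratic congruence modulo a prime has at most two roots -/
theorem card_le_two (e : ℤ) (p : ℕ) (hp : p.Prime) :
    ((range p).filter (fun m : ℕ => (p : ℤ) ∣ (m : ℤ) ^ 2 + e)).card ≤ 2 := by
  have : Fact p.Prime := ⟨hp⟩
  have h1 : ((range p).filter (fun m : ℕ => (p : ℤ) ∣ (m : ℤ) ^ 2 + e)).card ≤
      (Polynomial.X ^ 2 + Polynomial.C (e : ZMod p)).roots.toFinset.card := by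
    refine card_le_card_of_injOn (fun m : ℕ => (m : ZMod p)) ?_ ?_
    · intro m hm
      simp only [coe_filter, mem_range, Set.mem_ofPred_eq] at hm
      have hne : (Polynomial.X ^ 2 + Polynomial.C (e : ZMod p)) ≠ 0 :=
        (Polynomial.monic_X_pow_add_C (e : ZMod p) two_ne_zero).ne_zero
      rw [mem_coe, Multiset.mem_toFinset, Polynomial.mem_roots hne]
      have h2 := (ZMod.intCast_zmod_eq_zero_iff_dvd _ p).2 hm.2
      push_cast at h2
      simp only [Polynomial.IsRoot, Polynomial.eval_add, Polynomial.eval_pow, Polynomial.eval_X,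
        Polynomial.eval_C]
      exact h2
    · intro m hm n hn h
      simp only [coe_filter, mem_range, Set.mem_ofPred_eq] at hm hn
      have h3 := congrArg ZMod.val h
      simp only at h3
      rwa [ZMod.val_cast_of_lt hm.1, ZMod.val_cast_of_lt hn.1] at h3
  refine h1.trans ((Multiset.toFinset_card_le _).trans ((Polynomial.card_roots' _).trans ?_))
  exact (Polynomial.natDegree_X_pow_add_C).le

theorem lq_pos (e : ℤ) (p : ℕ) (hp : p.Prime) (h3 : 3 ≤ p) : 0 < lq e p := by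
  unfold lq
  have h := card_le_two e p hp
  have h1 : (((range p).filter (fun m : ℕ => (p : ℤ) ∣ (m : ℤ) ^ 2 + e)).card : ℝ) ≤ 2 := by exact_mod_cast h
  have h2 : (3 : ℝ) ≤ p := by exact_mod_cast h3
  rw [sub_pos, div_lt_one (by linarith)]
  linarith

theorem lf_eq (a b c : ℤ) (ha : 0 < a) (p : ℕ) (hp : p.Prime) (hp2 : p ≠ 2) (hpa : ¬ (p : ℤ) ∣ a) :
    lf (F a b c) p = lq (-(b ^ 2 - 4 * a * c)) p := by
  unfold lf lq
  rw [card_roots a b c ha p hp hp2 hpa]

/-- the window product over the primes -/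
theorem win_prod (e : ℤ) (z : ℝ) (hz : 1 ≤ z) (N j : ℕ) :
    Pool.Agent.Y882.JR.dens e (z ^ th N (j + 1)) =
      Pool.Agent.Y882.JR.dens e (z ^ th N j) * ∏ p ∈ win z N j, lq e p := by
  rw [dens_lq, dens_lq, win, ← prod_union]
  · congr 1
    ext p
    have h1 : ⌈z ^ th N j⌉₊ ≤ ⌈z ^ th N (j + 1)⌉₊ :=
      Nat.ceil_mono (Real.rpow_le_rpow_of_exponent_le hz (th_mono N (Nat.le_succ j)))
    simp only [mem_union, mem_filter, mem_range, mem_Ico]
    constructor
    · rintro ⟨h2, h3⟩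
      rcases Nat.lt_or_ge p ⌈z ^ th N j⌉₊ with h | h
      · exact Or.inl ⟨h, h3⟩
      · exact Or.inr ⟨⟨h, h2⟩, h3⟩
    · rintro (⟨h2, h3⟩ | ⟨h2, h3⟩)
      · exact ⟨by omega, h3⟩
      · exact ⟨h2.2, h3⟩
  · rw [disjoint_left]
    intro p h1 h2
    rw [mem_filter, mem_range] at h1
    rw [mem_filter, mem_Ico] at h2
    omega

theorem win_small_lq (e : ℤ) (hns : ¬ IsSquare (-e)) (N : ℕ) (hN : 1 ≤ N) (j : ℕ) (hj : j < N) :
    ∀ᶠ z : ℝ in atTop, ∏ p ∈ win z N j, lq e p ≤ 1 - 1 / (4 * N) := by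
  obtain ⟨C, hC, -, hlim⟩ := Pool.Agent.Y781.JR.t e hns
  set L := C * Real.exp (-Real.eulerMascheroniConstant) with hL
  have hL0 : 0 < L := mul_pos hC (Real.exp_pos _)
  have hNr : (1 : ℝ) ≤ N := by exact_mod_cast hN
  have hlim' : ∀ θ : ℝ, 0 < θ →
      Tendsto (fun z : ℝ => Pool.Agent.Y882.JR.dens e (z ^ θ) * Real.log z) atTop (𝓝 (L / θ)) := by
    intro θ hθ
    have h1 := (hlim.comp (tendsto_rpow_atTop hθ)).div_const θ
    refine h1.congr' ?_
    filter_upwards [eventually_gt_atTop (1 : ℝ)] with z hz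
    simp only [Function.comp]
    rw [Real.log_rpow (by linarith)]
    field_simp
  have h0 : ∀ i, 0 < th N i := fun i => lt_of_lt_of_le (by norm_num) (th_half N i)
  have h1 := (hlim' _ (h0 (j + 1))).div (hlim' _ (h0 j)) (div_pos hL0 (h0 j)).ne'
  have h2 : (L / th N (j + 1)) / (L / th N j) < 1 - 1 / (4 * N) := by
    have h3 : (L / th N (j + 1)) / (L / th N j) = th N j / th N (j + 1) := by
      have := h0 j
      have := h0 (j + 1)
      field_simp
    rw [h3, div_lt_iff₀ (h0 _)]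
    have h4 : th N (j + 1) = th N j + 1 / (2 * N) := by
      unfold th
      push_cast
      ring
    have h5 : th N (j + 1) ≤ 1 := by
      rw [← th_top N hN]
      exact th_mono N hj
    have h6 : (0 : ℝ) < 1 / (4 * N) := by positivity
    have h7 : (1 : ℝ) / (2 * N) = 2 * (1 / (4 * N)) := by field_simp; norm_num
    have h8 := mul_nonneg h6.le (sub_nonneg.2 h5)
    rw [h4, h7] at h8 ⊢
    nlinarith
  have hpos : ∀ᶠ z : ℝ in atTop, Pool.Agent.Y882.JR.dens e (z ^ th N j) * Real.log z ≠ 0 := by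
    have := (hlim' _ (h0 j)).eventually_const_lt (div_pos hL0 (h0 j))
    filter_upwards [this] with z hz using hz.ne'
  filter_upwards [h1.eventually_lt_const h2, eventually_gt_atTop (1 : ℝ), hpos] with z hz hz1 hp
  have hlog : 0 < Real.log z := Real.log_pos hz1
  have hd : Pool.Agent.Y882.JR.dens e (z ^ th N j) ≠ 0 := left_ne_zero_of_mul hp
  simp only [Pi.div_apply] at hz
  rw [mul_div_mul_right _ _ hlog.ne', win_prod e z hz1.le N j, mul_div_cancel_left₀ _ hd] at hz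
  exact hz.le

theorem mem_win_ge (z : ℝ) (hz : 1 ≤ z) (N j : ℕ) (p : ℕ) (hp : p ∈ win z N j) :
    p.Prime ∧ z ^ (1 / 2 : ℝ) ≤ p := by
  unfold win at hp
  rw [mem_filter, mem_Ico] at hp
  refine ⟨hp.2, le_trans ?_ (Nat.ceil_le.1 hp.1.1)⟩
  exact Real.rpow_le_rpow_of_exponent_le hz (th_half N j)

/-- the primes of the windows do not divide `2 a` -/
theorem big_primes (a : ℤ) (ha : 0 < a) (N : ℕ) : ∀ᶠ z : ℝ in atTop, ∀ j, ∀ p ∈ win z N j,
    p.Prime ∧ 3 ≤ p ∧ ¬ (p : ℤ) ∣ a := by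
  have h1 : Tendsto (fun z : ℝ => z ^ (1 / 2 : ℝ)) atTop atTop := tendsto_rpow_atTop (by norm_num)
  filter_upwards [h1.eventually_gt_atTop ((a : ℝ) + 3), eventually_ge_atTop (1 : ℝ)] with z hz hz1 j p hp
  obtain ⟨h2, h3⟩ := mem_win_ge z hz1 N j p hp
  have ha0 : (0 : ℝ) < a := by exact_mod_cast ha
  have h4 : (a : ℝ) + 3 < p := hz.trans_le h3
  have h5 : a + 3 < (p : ℤ) := by exact_mod_cast h4
  refine ⟨h2, by omega, fun h => ?_⟩
  have := Int.le_of_dvd ha h
  omega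

theorem win_small (a b c : ℤ) (ha : 0 < a) (hD : ¬ IsSquare (b ^ 2 - 4 * a * c)) (N : ℕ) (hN : 1 ≤ N) :
    ∀ᶠ z : ℝ in atTop, (∀ j < N, ∏ p ∈ win z N j, lf (F a b c) p ≤ 1 - 1 / (4 * N)) ∧
      ∀ p ∈ UJ z N (range N), 0 < lf (F a b c) p := by
  have h := (eventually_all_finset (range N) (l := atTop)
      (p := fun j (z : ℝ) => ∏ p ∈ win z N j, lq (-(b ^ 2 - 4 * a * c)) p ≤ 1 - 1 / (4 * N))).2
      (fun j hj => win_small_lq _ (by rw [neg_neg]; exact hD) N hN j (mem_range.1 hj))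
  filter_upwards [h, big_primes a ha N] with z hz hb
  constructor
  · intro j hj
    refine le_trans (le_of_eq ?_) (hz j (mem_range.2 hj))
    refine prod_congr rfl fun p hp => ?_
    obtain ⟨h1, h2, h3⟩ := hb j p hp
    exact lf_eq a b c ha p h1 (by omega) h3
  · intro p hp
    unfold UJ at hp
    rw [mem_biUnion] at hp
    obtain ⟨j, -, hj⟩ := hp
    obtain ⟨h1, h2, h3⟩ := hb j p hj
    rw [lf_eq a b c ha p h1 (by omega) h3]
    exact lq_pos _ p h1 h2

end Pool.Agent.H40.QU
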